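import Mathlib

namespace Pool.Agent.H.MP_627409_gt

open MeasureTheory

abbrev E := EuclideanSpace ℝ (Fin 4)

noncomputable def J0 (x : E) : E := !₂[-x 1, x 0, -x 3, x 2]

noncomputable def J1 (x : E) : E := !₂[-x 2, x 3, x 0, -x 1]

noncomputable def J2 (x : E) : E := !₂[-x 3, -x 2, x 1, x 0]

noncomputable def g (μ : ℝ) (x u v : E) : ℝ :=
  inner ℝ u v + (μ - 1) * inner ℝ u (J0 x) * inner ℝ v (J0 x)

noncomputable def koszul (μ : ℝ) (X Y Z : E → E) (x : E) : ℝ :=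
  (fderiv ℝ (fun y => g μ y (Y y) (Z y)) x (X x) + fderiv ℝ (fun y => g μ y (X y) (Z y)) x (Y x)
    - fderiv ℝ (fun y => g μ y (X y) (Y y)) x (Z x)
    + g μ x (VectorField.lieBracket ℝ X Y x) (Z x) - g μ x (VectorField.lieBracket ℝ X Z x) (Y x)
    - g μ x (VectorField.lieBracket ℝ Y Z x) (X x)) / 2

noncomputable def frame (μ : ℝ) : Fin 3 → E → E := ![fun x => (√μ)⁻¹ • J0 x, J1, J2]

noncomputable def normSq (μ : ℝ) (V : E → E) (x : E) : ℝ :=
  ∑ i, ∑ j, koszul μ (frame μ i) V (frame μ j) x ^ 2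

noncomputable def dv (μ : ℝ) : Measure (Metric.sphere (0 : E) 1) :=
  ENNReal.ofReal (√μ) • (volume : Measure E).toSphere

noncomputable def energy (μ : ℝ) (V : E → E) : ℝ :=
  3 / 2 * (dv μ).real Set.univ + 1 / 2 * ∫ x, normSq μ V x.1 ∂(dv μ)

noncomputable def V0 (x : E) : E :=
  ((x 0 * x 0 + x 1 * x 1 - x 2 * x 2 - x 3 * x 3) / 2) • J0 x + (2 * (x 1 * x 2 + x 0 * x 3)) • J1 x
    + (2 * (x 1 * x 3 - x 0 * x 2)) • J2 x

noncomputable def D (v : E) (f : E → ℝ) (x : E) : ℝ := fderiv ℝ f x v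

lemma D_const (v : E) (c : ℝ) (x : E) : D v (fun _ => c) x = 0 := by simp [D]

lemma D_coord (v : E) (i : Fin 4) (x : E) : D v (fun y : E => y i) x = v i := by
  have h : HasFDerivAt (fun y : E => y i) (EuclideanSpace.proj (𝕜 := ℝ) i) x :=
    (EuclideanSpace.proj (𝕜 := ℝ) i).hasFDerivAt
  unfold D
  rw [h.fderiv]
  rfl

lemma D_add (v : E) (f h : E → ℝ) (x : E) (hf : DifferentiableAt ℝ f x)
    (hg : DifferentiableAt ℝ h x) : D v (fun z => f z + h z) x = D v f x + D v h x := by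
  unfold D
  rw [fderiv_fun_add hf hg]
  rfl

lemma D_sub (v : E) (f h : E → ℝ) (x : E) (hf : DifferentiableAt ℝ f x)
    (hg : DifferentiableAt ℝ h x) : D v (fun z => f z - h z) x = D v f x - D v h x := by
  unfold D
  rw [fderiv_fun_sub hf hg]
  rfl

lemma D_neg (v : E) (f : E → ℝ) (x : E) : D v (fun z => -f z) x = -D v f x := by
  unfold D
  rw [fderiv_fun_neg]
  rfl

lemma D_mul (v : E) (f h : E → ℝ) (x : E) (hf : DifferentiableAt ℝ f x)
    (hg : DifferentiableAt ℝ h x) :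
    D v (fun z => f z * h z) x = D v f x * h x + f x * D v h x := by
  unfold D
  rw [fderiv_fun_mul hf hg]
  simp only [add_apply, smul_apply, smul_eq_mul]
  ring

lemma fd_comp (X : E → E) (x v : E) (hX : DifferentiableAt ℝ X x) (i : Fin 4) :
    fderiv ℝ X x v i = D v (fun y => X y i) x := by
  have h := (EuclideanSpace.proj (𝕜 := ℝ) i).hasFDerivAt.comp x hX.hasFDerivAt
  unfold D
  have e : (fun y => X y i) = (EuclideanSpace.proj (𝕜 := ℝ) i) ∘ X := rfl
  rw [e, h.fderiv]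
  rfl

lemma inn (u v : E) : inner ℝ u v = u 0 * v 0 + u 1 * v 1 + u 2 * v 2 + u 3 * v 3 := by
  simp [PiLp.inner_apply, Fin.sum_univ_four, mul_comm]

@[fun_prop] lemma cd0 {k : WithTop ℕ∞} : ContDiff ℝ k J0 := by
  rw [contDiff_euclidean]
  intro i
  fin_cases i <;> simp [J0] <;> fun_prop
@[fun_prop] lemma cd1 {k : WithTop ℕ∞} : ContDiff ℝ k J1 := by
  rw [contDiff_euclidean]
  intro i
  fin_cases i <;> simp [J1] <;> fun_prop
@[fun_prop] lemma cd2 {k : WithTop ℕ∞} : ContDiff ℝ k J2 := by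
  rw [contDiff_euclidean]
  intro i
  fin_cases i <;> simp [J2] <;> fun_prop
@[fun_prop] lemma cdV {k : WithTop ℕ∞} : ContDiff ℝ k V0 := by
  unfold V0
  fun_prop

noncomputable def e0 (x : E) : E := (2 : ℝ)⁻¹ • J0 x

lemma frame4 : frame 4 = ![e0, J1, J2] := by
  have : √(4 : ℝ) = 2 := by
    rw [show (4 : ℝ) = 2 ^ 2 by norm_num, Real.sqrt_sq (by norm_num)]
  unfold frame
  rw [this]
  rfl

lemma fd0 (x v : E) : fderiv ℝ e0 x v = e0 v := by
  have h : DifferentiableAt ℝ e0 x := by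
    unfold e0
    have := (cd0 (k := 1)).differentiable (by simp) x
    fun_prop
  ext i
  rw [fd_comp _ _ _ h]
  fin_cases i <;> simp (disch := fun_prop) [e0, J0, D_coord, D_neg, D_mul, D_const]

lemma fd1 (x v : E) : fderiv ℝ J1 x v = J1 v := by
  ext i
  rw [fd_comp _ _ _ ((cd1 (k := 1)).differentiable (by simp) x)]
  fin_cases i <;> simp [J1, D_coord, D_neg]

lemma fd2 (x v : E) : fderiv ℝ J2 x v = J2 v := by
  ext i
  rw [fd_comp _ _ _ ((cd2 (k := 1)).differentiable (by simp) x)]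
  fin_cases i <;> simp [J2, D_coord, D_neg]

noncomputable def a0 (x : E) : ℝ := x 0 * x 0 + x 1 * x 1 - x 2 * x 2 - x 3 * x 3
noncomputable def a1 (x : E) : ℝ := 2 * (x 1 * x 2 + x 0 * x 3)
noncomputable def a2 (x : E) : ℝ := 2 * (x 1 * x 3 - x 0 * x 2)
noncomputable def s (x : E) : ℝ := x 0 * x 0 + x 1 * x 1 + x 2 * x 2 + x 3 * x 3

@[fun_prop] lemma da0 (x : E) : DifferentiableAt ℝ a0 x := by
  unfold a0
  fun_prop
@[fun_prop] lemma da1 (x : E) : DifferentiableAt ℝ a1 x := by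
  unfold a1
  fun_prop
@[fun_prop] lemma da2 (x : E) : DifferentiableAt ℝ a2 x := by
  unfold a2
  fun_prop
@[fun_prop] lemma ds (x : E) : DifferentiableAt ℝ s x := by
  unfold s
  fun_prop

lemma Da0 (v x : E) : D v a0 x = 2 * (x 0 * v 0 + x 1 * v 1 - x 2 * v 2 - x 3 * v 3) := by
  unfold a0
  simp (disch := fun_prop) only [D_add, D_sub, D_mul, D_coord]
  ring
lemma Da1 (v x : E) : D v a1 x = 2 * (v 1 * x 2 + x 1 * v 2 + v 0 * x 3 + x 0 * v 3) := by
  unfold a1
  simp (disch := fun_prop) only [D_add, D_mul, D_coord, D_const]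
  ring
lemma Da2 (v x : E) : D v a2 x = 2 * (v 1 * x 3 + x 1 * v 3 - v 0 * x 2 - x 0 * v 2) := by
  unfold a2
  simp (disch := fun_prop) only [D_sub, D_mul, D_coord, D_const]
  ring
lemma Ds (v x : E) : D v s x = 2 * (x 0 * v 0 + x 1 * v 1 + x 2 * v 2 + x 3 * v 3) := by
  unfold s
  simp (disch := fun_prop) only [D_add, D_mul, D_coord]
  ring

lemma V0_eq (x : E) : V0 x = a0 x • e0 x + a1 x • J1 x + a2 x • J2 x := by
  ext i
  simp [V0, a0, a1, a2, e0]
  ring

lemma fdV (x v : E) : fderiv ℝ V0 x v = D v a0 x • e0 x + a0 x • e0 v + D v a1 x • J1 x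
    + a1 x • J1 v + D v a2 x • J2 x + a2 x • J2 v := by
  ext i
  rw [fd_comp _ _ _ ((cdV (k := 1)).differentiable (by simp) x)]
  simp only [V0_eq]
  fin_cases i <;>
    simp (disch := fun_prop) [e0, J0, J1, J2, D_coord, D_neg, D_mul, D_const, D_add] <;> ring

noncomputable def w (i : Fin 3) (t : ℝ) : ℝ := ![(t + 3 * (t * t)) * (1 / 4), t, t] i

noncomputable def aa : Fin 3 → E → ℝ := ![a0, a1, a2]

lemma gFF (i j : Fin 3) : (fun y => g 4 y (frame 4 i y) (frame 4 j y))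
    = fun y => (if i = j then 1 else 0) * w i (s y) := by
  funext y
  rw [frame4]
  simp only [g, inn]
  fin_cases i <;> fin_cases j <;> simp [e0, J0, J1, J2, w, s] <;> ring

lemma gVF (j : Fin 3) : (fun y => g 4 y (V0 y) (frame 4 j y)) = fun y => aa j y * w j (s y) := by
  funext y
  rw [frame4, V0_eq]
  fin_cases j <;> simp [g, inn, e0, J0, J1, J2, w, s, aa] <;> ring

lemma gFV (j : Fin 3) : (fun y => g 4 y (frame 4 j y) (V0 y)) = fun y => aa j y * w j (s y) := by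
  funext y
  rw [frame4, V0_eq]
  fin_cases j <;> simp [g, inn, e0, J0, J1, J2, w, s, aa] <;> ring

lemma Dw (i : Fin 3) (v x : E) (h : D v s x = 0) : D v (fun y => w i (s y)) x = 0 := by
  fin_cases i
  · simp (disch := fun_prop) only [w, Fin.zero_eta, Fin.isValue, Matrix.cons_val_zero, D_mul,
      D_add, D_const, h]
    ring
  · exact h
  · exact h

lemma dw (i : Fin 3) (x : E) : DifferentiableAt ℝ (fun y => w i (s y)) x := by
  fin_cases i <;> simp [w] <;> fun_prop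

lemma daa (i : Fin 3) (x : E) : DifferentiableAt ℝ (aa i) x := by
  fin_cases i <;> simp [aa] <;> fun_prop

lemma w1 (i : Fin 3) : w i 1 = 1 := by
  fin_cases i <;> simp [w]
  norm_num

lemma sF (i : Fin 3) (x : E) : D (frame 4 i x) s x = 0 := by
  rw [Ds, frame4]
  fin_cases i <;> simp [e0, J0, J1, J2] <;> ring

lemma sV (x : E) : D (V0 x) s x = 0 := by
  rw [Ds, V0_eq]
  simp [e0, J0, J1, J2]
  ring

noncomputable def kk (x : E) : Fin 3 → Fin 3 → ℝ := ![![0, -2 * a2 x, 2 * a1 x], 0, 0]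

noncomputable def qq (x : E) : Fin 3 → Fin 3 → ℝ :=
  ![![0, -(1 / 2 + 3 / 4 * s x) * a2 x, (1 / 2 + 3 / 4 * s x) * a1 x],
    ![-(3 / 2 + 3 / 4 * s x) * a2 x, 0, (2 + 3 / 2 * s x) * a0 x],
    ![(3 / 2 + 3 / 4 * s x) * a1 x, -(2 + 3 / 2 * s x) * a0 x, 0]]

lemma fdF (i : Fin 3) (x v : E) : fderiv ℝ (frame 4 i) x v = frame 4 i v := by
  rw [frame4]
  fin_cases i
  · exact fd0 x v
  · exact fd1 x v
  · exact fd2 x v

lemma kos (x : E) (hx : s x = 1) (i j : Fin 3) :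
    koszul 4 (frame 4 i) V0 (frame 4 j) x = kk x i j := by
  unfold koszul
  rw [gFF, gVF, gFV]
  change ((D _ _ _ + D _ _ _ - D _ _ _ + _ - _ - _) / 2) = _
  rw [D_mul _ _ _ _ (daa j x) (dw j x), D_mul _ _ _ _ (daa i x) (dw i x),
    D_mul _ _ _ _ (by fun_prop) (dw i x), Dw _ _ _ (sF i x), Dw _ _ _ (sF j x), Dw _ _ _ (sV x),
    D_const, hx, w1, w1]
  have e : kk x i j = kk x i j + qq x i j * (s x - 1) := by rw [hx]; ring
  rw [e]
  simp only [VectorField.lieBracket, fdV, fdF, g, inn, V0_eq]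
  rw [frame4]
  fin_cases i <;> fin_cases j <;>
    simp [aa, Da0, Da1, Da2, e0, J0, J1, J2, kk, qq] <;> simp only [a0, a1, a2, s] <;> ring

lemma s_sphere (x : Metric.sphere (0 : E) 1) : s x.1 = 1 := by
  have h : ‖x.1‖ = 1 := by simp
  have h2 := real_inner_self_eq_norm_sq x.1
  rw [inn, h] at h2
  unfold s
  linarith

lemma aa_sq (x : E) : a0 x ^ 2 + a1 x ^ 2 + a2 x ^ 2 = s x ^ 2 := by
  unfold a0 a1 a2 s
  ring

lemma normSq_eq (x : Metric.sphere (0 : E) 1) : normSq 4 V0 x.1 = 4 - 4 * a0 x.1 ^ 2 := by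
  have h := aa_sq x.1
  unfold normSq
  simp only [kos x.1 (s_sphere x), Fin.sum_univ_three]
  rw [s_sphere x] at h
  simp [kk]
  linear_combination 4 * h

instance : IsFiniteMeasure (dv 4) := by
  unfold dv
  exact Measure.smul_finite _ ENNReal.ofReal_ne_top

lemma vol_pos : 0 < (dv 4).real Set.univ := by
  refine ENNReal.toReal_pos ?_ (measure_ne_top _ _)
  unfold dv
  rw [Measure.smul_apply, smul_eq_mul]
  apply mul_ne_zero
  · have : 0 < √(4 : ℝ) := Real.sqrt_pos.2 (by norm_num)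
    exact (ENNReal.ofReal_pos.2 this).ne'
  · rw [Ne, Measure.measure_univ_eq_zero]
    exact Measure.toSphere_ne_zero _

theorem main : ∃ μ : ℝ, 1 < μ ∧ ∃ V : E → E, ContDiff ℝ (⊤ : ℕ∞) V ∧
    (∀ x ∈ Metric.sphere (0 : E) 1, inner ℝ (V x) x = 0 ∧ g μ x (V x) (V x) = 1) ∧
    Integrable (fun x : Metric.sphere (0 : E) 1 => normSq μ V x.1) (dv μ) ∧
    energy μ V < (3 / 2 + μ + 2 * ((1 - μ) / μ)) * (dv μ).real Set.univ := by
  have hi : Integrable (fun x : Metric.sphere (0 : E) 1 => normSq 4 V0 x.1) (dv 4) := by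
    simp only [normSq_eq]
    apply Continuous.integrable_of_hasCompactSupport
    · unfold a0
      fun_prop
    · exact HasCompactSupport.of_compactSpace _
  refine ⟨4, by norm_num, V0, cdV, ?_, hi, ?_⟩
  · intro x hx
    have h := s_sphere ⟨x, hx⟩
    have h2 := aa_sq x
    simp only at h
    constructor
    · rw [inn, V0_eq]
      simp [e0, J0, J1, J2]
      ring
    · have e : g 4 x (V0 x) (V0 x) = a0 x ^ 2 * w 0 (s x) + a1 x ^ 2 * s x + a2 x ^ 2 * s x := by
        rw [V0_eq]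
        simp only [g, inn]
        simp [e0, J0, J1, J2, w, s]
        ring
      rw [e, h, w1]
      rw [h] at h2
      linarith
  · have hle : ∫ x : Metric.sphere (0 : E) 1, normSq 4 V0 x.1 ∂(dv 4)
        ≤ ∫ _x : Metric.sphere (0 : E) 1, (4 : ℝ) ∂(dv 4) := by
      apply integral_mono hi (integrable_const _)
      intro x
      simp only [normSq_eq]
      nlinarith [sq_nonneg (a0 x.1)]
    rw [integral_const, smul_eq_mul] at hle
    have := vol_pos
    unfold energy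
    linarith

end Pool.Agent.H.MP_627409_gt
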